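import Mathlib
import Pool.Agent.H767R2.Charac
import Pool.Agent.H767R2.Exist3
import Pool.Agent.H767R2.Defs2

set_option autoImplicit false

/-!
# The bound `d^W_min(𝒫) ≤ |𝒫| - 1`

For every essentially distinct family `𝒫` of at least two integer polynomials the Host–Kra factor
`𝒵_{|𝒫| - 1}` of every Weyl system is characteristic for mean convergence of the averages
`(1/N) ∑_{n ≤ N} ∏_{p ∈ 𝒫} T^{p(n)} f_p`.
-/

namespace Pool.Agent.Results.MP_467fc0_an.WeylDegreeBound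

open Pool.Agent.H767R2 MeasureTheory Filter Topology Polynomial
open scoped ENNReal

/-- **`d^W_min(𝒫) ≤ |𝒫| - 1` for every essentially distinct family `𝒫` with `|𝒫| ≥ 2`.**
In detail, on every Weyl system:
* the Host–Kra factor `𝒵_{|𝒫| - 1}` exists;
* it is characteristic for mean convergence of the averages of the family `𝒫`;
* if the functions `f_p` are bounded and `|||f_p|||_{|𝒫|} = 0` for some `p`, then `A_N → 0` in `L²`. -/
theorem result (P : Finset ℤ[X]) (hP : EssentiallyDistinct P) (h2 : 2 ≤ P.card) :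
    dWMin P ≤ ((P.card - 1 : ℕ) : ℕ∞) ∧
    ∀ W : WeylSystem,
      (∃ 𝒵 : MeasurableSpace (Fin W.D → UnitAddCircle), IsHKFactor 𝒵 (haarT W.D) W.T (P.card - 1)) ∧
      (∀ 𝒵 : MeasurableSpace (Fin W.D → UnitAddCircle),
        IsHKFactor 𝒵 (haarT W.D) W.T (P.card - 1) → IsCharacteristic 𝒵 (haarT W.D) W.T P) ∧
      ∀ f : ℤ[X] → (Fin W.D → UnitAddCircle) → ℂ, (∀ p ∈ P, MemLp (f p) ∞ (haarT W.D)) →
        (∃ p ∈ P, hk (haarT W.D) W.T (P.card - 1) (f p) = 0) →
        Tendsto (fun N : ℕ => eLpNorm (polyAvg W.T P f N) 2 (haarT W.D)) atTop (𝓝 0) := by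
  classical
  refine ⟨?_, fun W => ⟨W.exists_hkFactor _, fun 𝒵 h => characteristic_card_sub_one P hP h2 W 𝒵 h, ?_⟩⟩
  · refine iInf₂_le (P.card - 1) fun W => ?_
    obtain ⟨𝒵, h𝒵⟩ := W.exists_hkFactor (P.card - 1)
    exact ⟨𝒵, h𝒵, characteristic_card_sub_one P hP h2 W 𝒵 h𝒵⟩
  · rintro f hf ⟨p, hp, h0⟩
    exact seminorm_form W P (fun q => q) h2 (fun q hq => hP.1 q hq)
      (fun q hq q' hq' h => hP.2 q hq q' hq' h) f _ (fun q hq => bd_of_memLp_top (hf q hq)) p hp h0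

end Pool.Agent.Results.MP_467fc0_an.WeylDegreeBound
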